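import Mathlib
import Pool.Agent.P.MP_2957ea_an.Defs
import Pool.Agent.P.MP_2957ea_an.NC.StDefs
import Pool.Agent.P.MP_2957ea_an.NC.Glue
import Pool.Agent.P.MP_2957ea_an.NC.Bad
import Pool.Agent.P.MP_2957ea_an.NC.Basis
import Pool.Agent.P.MP_2957ea_an.NC.Bichar
import Pool.Agent.P.MP_2957ea_an.NC.Comm
import Pool.Agent.P.MP_2957ea_an.NC.Dich
import Pool.Agent.P.MP_2957ea_an.NC.Drift
import Pool.Agent.P.MP_2957ea_an.NC.Eig
import Pool.Agent.P.MP_2957ea_an.NC.Eval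
import Pool.Agent.P.MP_2957ea_an.NC.Exp
import Pool.Agent.P.MP_2957ea_an.NC.Fin
import Pool.Agent.P.MP_2957ea_an.NC.Flow
import Pool.Agent.P.MP_2957ea_an.NC.Grp
import Pool.Agent.P.MP_2957ea_an.NC.HGrp
import Pool.Agent.P.MP_2957ea_an.NC.II
import Pool.Agent.P.MP_2957ea_an.NC.L1
import Pool.Agent.P.MP_2957ea_an.NC.Lie1
import Pool.Agent.P.MP_2957ea_an.NC.Lie2
import Pool.Agent.P.MP_2957ea_an.NC.Main
import Pool.Agent.P.MP_2957ea_an.NC.Mu
import Pool.Agent.P.MP_2957ea_an.NC.Pow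
import Pool.Agent.P.MP_2957ea_an.NC.Prod
import Pool.Agent.P.MP_2957ea_an.NC.RedA
import Pool.Agent.P.MP_2957ea_an.NC.RedB
import Pool.Agent.P.MP_2957ea_an.NC.Res
import Pool.Agent.P.MP_2957ea_an.NC.Spec
import Pool.Agent.P.MP_2957ea_an.NC.Step3
import Pool.Agent.P.MP_2957ea_an.NC.Sys
import Pool.Agent.P.MP_2957ea_an.NC.Tiny
import Pool.Agent.P.MP_2957ea_an.NC.Trig
import Pool.Agent.P.MP_2957ea_an.NC.Vin
import Pool.Agent.P.MP_2957ea_an.NC.Zy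
import Pool.Agent.P.MP_2957ea_an.Inc.Fin

namespace Pool.Agent.Results.MP_2957ea_an.Increasing

open Filter Topology Pool.Agent.P.MP_2957ea_an Pool.Agent.P.MP_2957ea_an.NC

universe u

theorem result : ∃ a : ℕ → ℤ, StrictMono a ∧
    GoodForNilsystems.{u} 2 2 (fun _ => a) ∧
    (∀ ψ : (Fin 2 → ℤ) → ℂ, IsNilsequence.{u} 2 2 ψ → ∃ L : ℂ, Tendsto
      (fun N : ℕ => (N : ℂ)⁻¹ * ∑ n ∈ Finset.Icc 1 N, ψ (fun _ => a n)) atTop (𝓝 L)) ∧
    ¬ GoodForCommuting.{0} 2 (fun _ => a) :=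
  Inc.final' (cc (hgrp mu_facts) (spec trig) dich (step3 (hgrp mu_facts)) zy (tiny mu_facts vin)
    (comm mu_facts) (fin eig (main mu_facts)) (redA res) (redB l1)) elem_prod lie1 lie2 expData
    (grp res (flow l1) bichar basis pow_form) ii sys eval drift

end Pool.Agent.Results.MP_2957ea_an.Increasing
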