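import Mathlib
import Pool.Agent.P.MP_2957ea_an.Defs
import Pool.Agent.P.MP_2957ea_an.Ergodic
import Pool.Agent.P.MP_2957ea_an.Heis

namespace Pool.Agent.Results.MP_2957ea_an.NotEquivalent

open Filter Topology Pool.Agent.P.MP_2957ea_an

universe u

theorem result : ∃ a : Fin 2 → ℕ → ℤ, (∀ i, Tendsto (a i) atTop atTop) ∧
    GoodForCommuting.{u} 2 a ∧
    ∃ ψ : (Fin 2 → ℤ) → ℂ, IsContinuousBasicNilsequence 2 2 ψ ∧
      ¬ ∃ L : ℂ, Tendsto (fun N : ℕ => (N : ℂ)⁻¹ * ∑ n ∈ Finset.Icc 1 N, ψ (fun i => a i n))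
        atTop (𝓝 L) := by
  have hα : Irrational (√2) := irrational_sqrt_two
  obtain ⟨a, h1, h2, st, h3, h4, h5⟩ := exists_sequence (√2)
  have hsum : ∀ (N : ℕ) (w : ℕ → ℂ), ∑ n ∈ Finset.Icc 1 N, w (n - 1) = ∑ m ∈ Finset.range N, w m := by
    intro N w
    rw [Finset.range_eq_Ico, ← Finset.Ico_add_one_right_eq_Icc, ← Finset.sum_Ico_add' _ 0 N 1]
    simp
  refine ⟨![fun n => ((a (n - 1)).1 : ℤ), fun n => ((a (n - 1)).2 : ℤ)], fun i => ?_, ?_,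
    _, isNil_quadratic (√2), ?_⟩
  · fin_cases i
    · exact tendsto_natCast_atTop_atTop.comp (h1.comp (tendsto_sub_atTop_nat 1))
    · exact tendsto_natCast_atTop_atTop.comp (h2.comp (tendsto_sub_atTop_nat 1))
  · intro X _ μ _ T hT _ _ f hf
    obtain ⟨g, hg, hlim⟩ := exists_good_pair hα (a := a)
      (fun v C hv L hL => (cesaro_iff_blockAvg h3 h4 h5 v hv L).2 hL) (hT 0) (hT 1) (hf 0) (hf 1)
    refine ⟨g, hg, hlim.congr fun N => ?_⟩
    congr 1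
    funext x
    rw [← hsum N fun m => f 0 ((T 0)^[(a m).1] x) * f 1 ((T 1)^[(a m).2] x)]
    simp [Fin.prod_univ_two, Equiv.Perm.iterate_eq_pow]
  · rintro ⟨L, hL⟩
    refine not_tendsto_blockAvg_ee hα L ((cesaro_iff_blockAvg h3 h4 h5 _
      (fun s => (norm_ee _).le) L).1 (hL.congr fun N => ?_))
    rw [← hsum N fun m => ee (√2 * ((a m).1 : ℝ) ^ 2)]
    simp

end Pool.Agent.Results.MP_2957ea_an.NotEquivalent
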